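import Pool.Agent.Helper88.RR.Goals

/-! At a prime the weight is `GB`. -/

set_option autoImplicit false

open Finset

open scoped Classical

namespace Pool.Agent.Helper59.RR

open Pool.Agent.Helper88.RR

open Pool.Agent.Helper88.PP (pr Rg om Sf SS uu vv ee LA VV QQ NN XX cost nc dd)

theorem vv_one {M z y : ℕ} {p0 n : ℕ} (hM : 2 ≤ M) (hz : 2 ≤ z) (hp : p0.Prime)
    (hn : z ^ M ≤ n) (hnp : n ≤ p0) {s : ℕ} (hs : s ∈ SS z (z ^ M)) :
    vv y z s p0 = 1 := by
  unfold SS at hs
  rw [mem_filter, mem_Ico] at hs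
  obtain ⟨⟨hs1, hs2⟩, _⟩ := hs
  have hzM : z < z ^ M := by
    calc z = z ^ 1 := (pow_one z).symm
      _ < z ^ M := Nat.pow_lt_pow_right (by omega) (by omega)
  have hlt : ∀ p : ℕ, p.Prime → p < z ^ M → ¬ p ∣ p0 := by
    intro p hpp hpl hd
    have := (Nat.prime_dvd_prime_iff_eq hpp hp).1 hd
    omega
  have hRg : Rg y z p0 := by
    intro p hpr
    unfold pr at hpr
    rw [mem_filter, mem_Ioc] at hpr
    exact hlt p hpr.2 (lt_of_le_of_lt hpr.1.2 hzM)
  unfold vv
  rw [if_neg (by omega), if_pos hRg]
  unfold uu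
  apply Finset.prod_eq_one
  intro p hpm
  have hpp := Nat.prime_of_mem_primeFactors hpm
  have hpd := Nat.dvd_of_mem_primeFactors hpm
  have hps : p ≤ s := Nat.le_of_dvd (by omega) hpd
  rw [if_neg (hlt p hpp (by omega))]
  simp

theorem LA_sub {z m m' M : ℕ} (hz : 2 ≤ z) (h : m' ≤ M) : LA z m m' ⊆ SS z (z ^ M) := by
  intro r hr
  unfold LA at hr
  rw [mem_filter] at hr
  have h1 := hr.1
  unfold SS at h1 ⊢
  rw [mem_filter, mem_Ico] at h1 ⊢
  exact ⟨⟨h1.1.1, lt_of_lt_of_le h1.1.2 (Nat.pow_le_pow_right (by omega) h)⟩, h1.2⟩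

theorem zero_notMem_SS {z X : ℕ} : 0 ∉ SS z X := by
  unfold SS
  rw [mem_filter, mem_Ico]
  rintro ⟨⟨h, _⟩, _⟩
  omega

theorem sum_split {P : Finset ℕ} (h : P) (g : P → ℕ → ℕ) (r : P → ℕ) (s : ℕ) :
    ∑ i, g i (Function.update r h s i) = g h s + ∑ i ∈ univ.erase h, g i (r i) := by
  rw [← Finset.add_sum_erase univ _ (mem_univ h)]
  congr 1
  · rw [Function.update_self]
  · apply Finset.sum_congr rfl
    intro i hi
    rw [Function.update_of_ne (ne_of_mem_erase hi)]

theorem prod_split {P : Finset ℕ} (h : P) (g : P → ℕ → ℝ) (r : P → ℕ) (s : ℕ) :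
    ∏ i, g i (Function.update r h s i) = g h s * ∏ i ∈ univ.erase h, g i (r i) := by
  rw [← Finset.mul_prod_erase univ _ (mem_univ h)]
  congr 1
  · rw [Function.update_self]
  · apply Finset.prod_congr rfl
    intro i hi
    rw [Function.update_of_ne (ne_of_mem_erase hi)]

theorem pw : StmtPW := by
  intro m q M z y P h n hM hm1 hz hVV hm2 hp hn
  set A := LA z m (q * m) with hA
  have hAsub : A ⊆ SS z (z ^ M) := LA_sub hz hm2
  have h0A : 0 ∉ A := fun h => zero_notMem_SS (hAsub h)
  have hvv : ∀ s ∈ SS z (z ^ M), vv y z s (n + (h : ℕ)) = 1 := fun s hs =>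
    vv_one hM hz hp hn (by omega) hs
  set c : ℕ → ℕ := fun s => if s = 0 then 0 else ee z s with hc
  set f : P → ℕ → ℝ := fun i s => (if s = 0 then 1 else - ab m q z s) * vv y z s (n + (i : ℕ))
    with hf
  have hf0 : f h 0 = 1 := by simp [hf, vv]
  have hfA : ∀ s ∈ A, f h s = - ab m q z s := by
    intro s hs
    have hs0 : s ≠ 0 := fun h => h0A (h ▸ hs)
    simp only [hf, if_neg hs0, hvv s (hAsub hs), mul_one]
  have hcost : ∀ (r : P → ℕ) (s : ℕ), r h = 0 →
      cost z (Function.update r h s) = cost z r + c s := by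
    intro r s hr
    have h1 : cost z (Function.update r h s) = c s + ∑ i ∈ univ.erase h, c (r i) := by
      unfold cost
      exact sum_split h (fun _ t => c t) r s
    have h2 : cost z r = c (r h) + ∑ i ∈ univ.erase h, c (r i) := by
      unfold cost
      exact (Finset.add_sum_erase univ _ (mem_univ h)).symm
    rw [h1, h2, hr]
    simp only [hc, if_true]
    omega
  have hmemTT : ∀ r : P → ℕ, r ∈ TB m q M z P ↔ (∀ i, r i ∈ insert 0 A) ∧ cost z r ≤ M := by
    intro r
    unfold TB
    rw [mem_filter, Fintype.mem_piFinset]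
  have hWW : WB m q M z y P n = ∑ r ∈ TB m q M z P, ∏ i, f i (r i) := rfl
  -- the sum of the coefficients
  have hsumaa : ∑ s ∈ A, ab m q z s = 1 := by
    unfold ab
    have : ∀ s ∈ A, 1 / (VV z m (q * m) * (Nat.totient s : ℝ) * ee z s) =
        (1 / VV z m (q * m)) * (1 / ((Nat.totient s : ℝ) * ee z s)) := by
      intro s _
      rw [mul_assoc, one_div_mul_one_div]
    rw [Finset.sum_congr rfl this, ← Finset.mul_sum]
    have h2 : ∑ s ∈ A, 1 / ((Nat.totient s : ℝ) * ee z s) = VV z m (q * m) := rfl
    rw [h2]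
    field_simp
  have hstep : ∀ r' ∈ (TB m q M z P).filter (fun r => r h = 0),
      ∑ r ∈ (TB m q M z P).filter (fun r => Function.update r h 0 = r'), ∏ i, f i (r i) =
        Db m q M z (cost z r') * ∏ i, f i (r' i) := by
    intro r' hr'
    rw [mem_filter, hmemTT] at hr'
    obtain ⟨⟨hr1, hr2⟩, hr3⟩ := hr'
    have e1 : ∑ r ∈ (TB m q M z P).filter (fun r => Function.update r h 0 = r'), ∏ i, f i (r i) =
        ∑ s ∈ (insert 0 A).filter (fun s => cost z r' + c s ≤ M),
          ∏ i, f i (Function.update r' h s i) := by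
      refine Finset.sum_bij' (fun r _ => r h) (fun s _ => Function.update r' h s) ?_ ?_ ?_ ?_ ?_
      · intro r hr
        rw [mem_filter, hmemTT] at hr
        obtain ⟨⟨ha, hb⟩, hd⟩ := hr
        rw [mem_filter]
        refine ⟨ha h, ?_⟩
        have : Function.update r' h (r h) = r := by
          rw [← hd]; simp
        rw [← hcost r' (r h) hr3, this]
        exact hb
      · intro s hs
        rw [mem_filter] at hs
        rw [mem_filter, hmemTT]
        refine ⟨⟨?_, ?_⟩, ?_⟩
        · intro i
          by_cases hi : i = h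
          · subst hi; rw [Function.update_self]; exact hs.1
          · rw [Function.update_of_ne hi]; exact hr1 i
        · rw [hcost r' s hr3]; exact hs.2
        · rw [Function.update_idem]
          conv_rhs => rw [← Function.update_eq_self h r', hr3]
      · intro r hr
        rw [mem_filter] at hr
        rw [← hr.2]; simp
      · intro s _
        simp
      · intro r hr
        rw [mem_filter] at hr
        have : Function.update r' h (r h) = r := by
          rw [← hr.2]; simp
        rw [this]
    have e2 : ∀ s, ∏ i, f i (Function.update r' h s i) =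
        f h s * ∏ i ∈ univ.erase h, f i (r' i) := fun s => prod_split h f r' s
    have e3 : ∏ i, f i (r' i) = ∏ i ∈ univ.erase h, f i (r' i) := by
      rw [← Finset.mul_prod_erase univ _ (mem_univ h), hr3, hf0, one_mul]
    rw [e1, Finset.sum_congr rfl (fun s _ => e2 s), ← Finset.sum_mul, e3]
    congr 1
    have e4 : (insert 0 A).filter (fun s => cost z r' + c s ≤ M) =
        insert 0 (A.filter (fun s => cost z r' + c s ≤ M)) := by
      rw [Finset.filter_insert, if_pos]
      simpa [hc] using hr2
    rw [e4, Finset.sum_insert (fun h => h0A (Finset.mem_filter.1 h).1), hf0]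
    have e5 : ∑ s ∈ A.filter (fun s => cost z r' + c s ≤ M), f h s =
        - ∑ s ∈ A.filter (fun s => cost z r' + ee z s ≤ M), ab m q z s := by
      rw [← Finset.sum_neg_distrib]
      apply Finset.sum_congr
      · apply Finset.filter_congr
        intro s hs
        have hs0 : s ≠ 0 := fun h => h0A (h ▸ hs)
        simp only [hc, if_neg hs0]
      · intro s hs
        exact hfA s (Finset.mem_filter.1 hs).1
    rw [e5]
    have e6 : Db m q M z (cost z r') =
        ∑ s ∈ A.filter (fun s => ¬ cost z r' + ee z s ≤ M), ab m q z s := by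
      unfold Db
      apply Finset.sum_congr _ (fun _ _ => rfl)
      apply Finset.filter_congr
      intro s _
      omega
    rw [e6]
    have e7 := Finset.sum_filter_add_sum_filter_not A
      (fun s => cost z r' + ee z s ≤ M) (fun s => ab m q z s)
    rw [hsumaa] at e7
    linarith
  have hmaps : ∀ r ∈ TB m q M z P, Function.update r h 0 ∈
      (TB m q M z P).filter (fun r => r h = 0) := by
    intro r hr
    rw [hmemTT] at hr
    rw [mem_filter, hmemTT]
    refine ⟨⟨?_, ?_⟩, ?_⟩
    · intro i
      by_cases hi : i = h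
      · subst hi; rw [Function.update_self]; exact mem_insert_self 0 A
      · rw [Function.update_of_ne hi]; exact hr.1 i
    · have h1 : cost z (Function.update (Function.update r h 0) h (r h)) =
          cost z (Function.update r h 0) + c (r h) := hcost _ _ (by simp)
      have h2 : Function.update (Function.update r h 0) h (r h) = r := by simp
      rw [h2] at h1
      have := hr.2
      omega
    · simp
  rw [hWW, ← Finset.sum_fiberwise_of_maps_to hmaps, Finset.sum_congr rfl hstep]
  -- the right side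
  have hV1 : VM M z ≠ 0 := by
    have h1 : (1 : ℕ) ∈ SS z (z ^ M) := by
      unfold SS
      rw [mem_filter, mem_Ico]
      refine ⟨⟨le_rfl, Nat.one_lt_pow (by omega) (by omega)⟩, squarefree_one, ?_⟩
      intro p hp hd
      exact absurd (Nat.dvd_one.1 hd) hp.one_lt.ne'
    have h2 : (1 : ℝ) / (Nat.totient 1 : ℝ) ≤ VM M z := by
      unfold VM
      exact Finset.single_le_sum (f := fun s : ℕ => 1 / (Nat.totient s : ℝ))
        (fun s _ => by positivity) h1
    simp at h2
    linarith
  unfold GB
  apply Finset.sum_congr rfl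
  intro r _
  have h3 : ∀ s ∈ SS z (z ^ M), Db m q M z (cost z r) * (1 / (VM M z * (Nat.totient s : ℝ))) *
      vv y z s (n + (h : ℕ)) * ∏ i : P, ((if r i = 0 then 1 else - ab m q z (r i)) *
        vv y z (r i) (n + (i : ℕ))) =
      (Db m q M z (cost z r) * ∏ i, f i (r i)) * ((1 / VM M z) * (1 / (Nat.totient s : ℝ))) := by
    intro s hs
    rw [hvv s hs, one_div_mul_one_div]
    simp only [hf]
    ring
  rw [Finset.sum_congr rfl h3, ← Finset.mul_sum, ← Finset.mul_sum]
  have h4 : ∑ s ∈ SS z (z ^ M), 1 / (Nat.totient s : ℝ) = VM M z := rfl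
  rw [h4, one_div_mul_cancel hV1, mul_one]

end Pool.Agent.Helper59.RR
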